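import Mathlib

namespace Pool.Agent.Results.MP_0523aa_nt.Two

open Polynomial Finset

def Ht (f : ℤ[X]) (c : ℤ) : Prop := ∀ n, |f.coeff n| ≤ c

lemma Ht.neg {f : ℤ[X]} {c : ℤ} (h : Ht f c) : Ht (-f) c := fun n => by simpa using h n

lemma good (q e m : ℕ) (hq : 0 < q) (he : Nat.Coprime q e) (hm : m ≤ q) (s : ℤ) (hs : |s| = 1)
    (g : ℤ[X]) (hg : Ht g 1) : Ht ((∑ i ∈ range m, (C s * X ^ e) ^ i) * expand ℤ q g) 1 := by
  intro n
  have h1 : ∀ i, ((C s * X ^ e) ^ i * expand ℤ q g).coeff n =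
      s ^ i * if e * i ≤ n then (if q ∣ n - e * i then g.coeff ((n - e * i) / q) else 0) else 0 := by
    intro i
    rw [mul_pow, ← C_pow, ← pow_mul, mul_assoc, coeff_C_mul, coeff_X_pow_mul', coeff_expand hq]
  rw [sum_mul, finsetSum_coeff, sum_congr rfl fun i _ => h1 i]
  by_cases h : ∃ i ∈ range m, e * i ≤ n ∧ q ∣ n - e * i
  · obtain ⟨i, hi, h2, h3⟩ := h
    rw [sum_eq_single_of_mem i hi, if_pos h2, if_pos h3, abs_mul, abs_pow, hs, one_pow, one_mul]
    · exact hg _
    · intro j hj hne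
      split_ifs with h4 h5
      · have h6 : e * i ≡ e * j [MOD q] :=
          ((Nat.modEq_iff_dvd' h2).2 h3).trans ((Nat.modEq_iff_dvd' h4).2 h5).symm
        have h7 := Nat.ModEq.cancel_left_of_coprime he h6
        exact absurd (Nat.ModEq.eq_of_lt_of_lt h7 (by have := mem_range.1 hi; omega)
          (by have := mem_range.1 hj; omega)).symm hne
      · simp
      · simp
  · rw [sum_eq_zero fun i hi => by
      split_ifs with h4 h5
      exacts [absurd ⟨i, hi, h4, h5⟩ h, by simp, by simp]]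
    simp

lemma divs {p f : ℤ[X]} (hp : Irreducible p) (h : f ∣ p) : f = 1 ∨ f = -1 ∨ f = p ∨ f = -p := by
  have hu : ∀ u : ℤ[X], IsUnit u → u = 1 ∨ u = -1 := fun u hu => by
    obtain ⟨r, hr, rfl⟩ := Polynomial.isUnit_iff.1 hu
    rcases Int.isUnit_iff.1 hr with rfl | rfl <;> simp
  rcases hp.dvd_iff.1 h with h | ⟨u, rfl⟩
  · rcases hu f h with h | h <;> simp [h]
  · rcases hu u u.isUnit with h | h <;> simp [h]

noncomputable def S (q e : ℕ) (s : ℤ) : ℤ[X] := ∑ i ∈ range q, (C s * X ^ e) ^ i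

noncomputable def E (q k b : ℕ) : ℤ[X] :=
  ∏ j ∈ range b, (cyclotomic (q ^ (k + j + 1)) ℤ * cyclotomic (2 * q ^ (k + j + 1)) ℤ)

variable {q : ℕ} (hq : q.Prime) (ho : Odd q)
include hq ho

omit hq ho in
lemma SA : S q 1 1 * (X - 1) = X ^ q - 1 := by simp [S, geom_sum_mul]

omit hq in
lemma SB : S q 1 (-1) * (X + 1) = X ^ q + 1 := by
  have := geom_sum_mul (-X : ℤ[X]) q
  rw [ho.neg_pow] at this
  simp only [S, C_neg, C_1, pow_one, neg_mul, one_mul]
  linear_combination -this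

omit hq in
lemma SAB : S q 1 1 * S q 1 (-1) = S q 2 1 := by
  have h : (X ^ 2 - 1 : ℤ[X]) ≠ 0 := fun h => by simpa using congrArg (eval 0) h
  have h2 := geom_sum_mul (X ^ 2 : ℤ[X]) q
  refine mul_right_cancel₀ h ?_
  rw [show S q 2 1 = ∑ i ∈ range q, (X ^ 2) ^ i by simp [S], h2]
  linear_combination (S q 1 (-1) * (X + 1)) * SA (q := q) + (X ^ q - 1) * SB ho

omit ho in
lemma cA (k : ℕ) : cyclotomic (q ^ (k + 1)) ℤ = expand ℤ (q ^ k) (S q 1 1) := by
  simp [cyclotomic_prime_pow_eq_geom_sum hq, S]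

lemma cB (k : ℕ) : cyclotomic (2 * q ^ (k + 1)) ℤ = expand ℤ (q ^ k) (S q 1 (-1)) := by
  induction k with
  | zero =>
    have h := cyclotomic_expand_eq_cyclotomic_mul hq (n := 2) (fun h => by
      have := (Nat.prime_dvd_prime_iff_eq hq Nat.prime_two).1 h
      subst this; exact absurd ho (by decide)) ℤ
    have h0 : (X + 1 : ℤ[X]) ≠ 0 := fun h => by simpa using congrArg (eval 0) h
    simp only [cyclotomic_two, map_add, expand_X, map_one] at h
    simp only [zero_add, pow_one, pow_zero, expand_one]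
    exact mul_right_cancel₀ h0 (by rw [← h, SB ho])
  | succ k ih =>
    rw [pow_succ' q k, expand_mul, ← ih, cyclotomic_expand_eq_cyclotomic hq ⟨2 * q ^ k, by ring⟩]
    congr 1; ring

lemma fac (b : ℕ) : (X ^ (2 * q ^ b) - 1 : ℤ[X]) = (X - 1) * (X + 1) * E q 0 b := by
  induction b with
  | zero => simp [E]; ring
  | succ b ih =>
    rw [E, prod_range_succ, ← E, ← mul_assoc, ← ih, zero_add, cA hq, cB hq ho]
    have a := congrArg (expand ℤ (q ^ b)) (SA (q := q))
    have c := congrArg (expand ℤ (q ^ b)) (SB ho)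
    simp only [map_mul, map_sub, map_add, map_pow, expand_X, map_one] at a c
    rw [mul_comm 2, mul_comm 2, pow_succ q, pow_mul, pow_mul, pow_mul]
    linear_combination (-(expand ℤ (q ^ b) (S q 1 (-1)) * (X ^ q ^ b + 1))) * a -
      ((X ^ q ^ b) ^ q - 1) * c

lemma one (b : ℕ) : ∀ k f, f ∣ E q k b → ∃ g, f = expand ℤ (q ^ k) g ∧ Ht g 1 := by
  induction b with
  | zero =>
    intro k f h
    have h1 : Ht 1 1 := fun n => by rw [coeff_one]; split_ifs <;> simp
    obtain ⟨r, hr, rfl⟩ := Polynomial.isUnit_iff.1 (isUnit_of_dvd_one h)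
    rcases Int.isUnit_iff.1 hr with rfl | rfl
    exacts [⟨1, by simp, h1⟩, ⟨-1, by simp, h1.neg⟩]
  | succ b ih =>
    intro k f h
    rw [E, prod_range_succ', mul_comm] at h
    obtain ⟨u, f3, hu, h3, rfl⟩ := exists_dvd_and_dvd_of_dvd_mul h
    obtain ⟨f1, f2, h1, h2, rfl⟩ := exists_dvd_and_dvd_of_dvd_mul hu
    obtain ⟨g, rfl, hg⟩ := ih (k + 1) f3 (by
      convert h3 using 1
      exact prod_congr rfl fun j _ => by rw [show k + 1 + j = k + (j + 1) by ring])
    have hp := hq.pos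
    have a := divs (cyclotomic.irreducible (by positivity)) h1
    have c := divs (cyclotomic.irreducible (by positivity)) h2
    rw [add_zero, cA hq] at a
    rw [add_zero, cB hq ho] at c
    have g0 := good q 1 1 hp (by simp) hp 1 (by simp) g hg
    have g1 := good q 1 q hp (by simp) le_rfl 1 (by simp) g hg
    have g2 := good q 1 q hp (by simp) le_rfl (-1) (by simp) g hg
    have g3 := good q 2 q hp (Nat.coprime_two_right.2 ho) le_rfl 1 (by simp) g hg
    rw [← S] at g1 g2 g3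
    rw [← SAB ho] at g3
    rw [pow_succ, expand_mul]
    rcases a with rfl | rfl | rfl | rfl <;> rcases c with rfl | rfl | rfl | rfl <;>
      first
        | (refine ⟨_, ?_, g0⟩; simp; done)
        | (refine ⟨_, ?_, g0.neg⟩; simp; done)
        | (refine ⟨_, ?_, g1⟩; simp; done)
        | (refine ⟨_, ?_, g1.neg⟩; simp; done)
        | (refine ⟨_, ?_, g2⟩; simp; done)
        | (refine ⟨_, ?_, g2.neg⟩; simp; done)
        | (refine ⟨_, ?_, g3⟩; simp; done)
        | (refine ⟨_, ?_, g3.neg⟩; simp; done)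

omit hq ho in
lemma two (g : ℤ[X]) (hg : Ht g 1) (k : ℕ) (s t : ℤ) (hs : |s| ≤ 1) (ht : |t| ≤ 1) :
    Ht ((C s * X ^ k + C t) * g) 2 := by
  intro n
  rw [add_mul, coeff_add, mul_assoc, coeff_C_mul, coeff_C_mul, coeff_X_pow_mul']
  refine (abs_add_le _ _).trans ?_
  rw [abs_mul, abs_mul]
  have := hg n
  have := hg (n - k)
  have := abs_nonneg (g.coeff n)
  have := abs_nonneg (g.coeff (n - k))
  split_ifs <;> [skip; simp only [abs_zero]] <;> nlinarith [abs_nonneg s, abs_nonneg t]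

omit hq ho in
theorem result (q b : ℕ) (hq : q.Prime) (ho : Odd q) (hb : 1 ≤ b) :
    IsGreatest {h : ℕ | ∃ f : ℤ[X], f ∣ X ^ (2 * q ^ b) - 1 ∧ ∃ n, (f.coeff n).natAbs = h} 2 := by
  rw [fac hq ho]
  constructor
  · refine ⟨(X + 1) * S q 1 1, ?_, 1, ?_⟩
    · rw [mul_assoc]
      refine Dvd.dvd.mul_left (mul_dvd_mul_left _ (Dvd.dvd.trans ?_
        (dvd_prod_of_mem _ (mem_range.2 hb)))) _
      rw [cA hq]; simp
    · have := hq.one_lt
      rw [add_mul, coeff_add, coeff_X_mul (S q 1 1) 0]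
      simp [S, coeff_X_pow, this, hq.pos]
  · rintro _ ⟨f, h, n, rfl⟩
    obtain ⟨u, f3, hu, h3, rfl⟩ := exists_dvd_and_dvd_of_dvd_mul h
    obtain ⟨f1, f2, h1, h2, rfl⟩ := exists_dvd_and_dvd_of_dvd_mul hu
    obtain ⟨g, rfl, hg⟩ := one hq ho b 0 f3 h3
    have a := divs (irreducible_X_sub_C (1 : ℤ)) h1
    have c := divs (irreducible_X_sub_C (-1 : ℤ)) (by simpa using h2)
    have : ∃ (k : ℕ) (s t : ℤ), |s| ≤ 1 ∧ |t| ≤ 1 ∧ f1 * f2 = C s * X ^ k + C t := by
      rcases a with rfl | rfl | rfl | rfl <;> rcases c with rfl | rfl | rfl | rfl <;>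
        first
          | (refine ⟨0, 0, 1, by simp, by simp, ?_⟩; simp only [map_one, map_neg, map_zero]; ring1)
          | (refine ⟨0, 0, -1, by simp, by simp, ?_⟩; simp only [map_one, map_neg, map_zero]; ring1)
          | (refine ⟨1, 1, 1, by simp, by simp, ?_⟩; simp only [map_one, map_neg]; ring1)
          | (refine ⟨1, 1, -1, by simp, by simp, ?_⟩; simp only [map_one, map_neg]; ring1)
          | (refine ⟨1, -1, 1, by simp, by simp, ?_⟩; simp only [map_one, map_neg]; ring1)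
          | (refine ⟨1, -1, -1, by simp, by simp, ?_⟩; simp only [map_one, map_neg]; ring1)
          | (refine ⟨2, 1, -1, by simp, by simp, ?_⟩; simp only [map_one, map_neg]; ring1)
          | (refine ⟨2, -1, 1, by simp, by simp, ?_⟩; simp only [map_one, map_neg]; ring1)
    obtain ⟨k, s, t, hs, ht, e⟩ := this
    have := two g hg k s t hs ht n
    rw [e, pow_zero, expand_one]
    rw [Int.abs_eq_natAbs] at this
    omega

end Pool.Agent.Results.MP_0523aa_nt.Two
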